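import Pool.Agent.H23.NVK.MTargets
import Pool.Agent.H3.CN.MOM

/-!
# MP_347b49_nt: row M_BDM, the moments of the mollifier sums

The proof is the one of `Pool.Agent.H49.CN.BDM`, over an abstract set of primes.
-/

set_option autoImplicit false

namespace Pool.Agent.H34.NVK

open Pool.Agent.H23.NVK
open Pool.Agent.H31.CN (GR E lin mo al et Mf T_MOM mo_E mo_one)

theorem mo_al (i j : ℕ) (p : ℕ) : mo i j (al p) =
    1 / (p : ℝ) * (Real.log p ^ i * 0 ^ j + 0 ^ i * Real.log p ^ j) := by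
  rw [al, map_smul, map_add, mo_E, mo_E, smul_eq_mul]

/-- the moments of the product of the `al (N p)` -/
theorem mo_prod (hMOM : T_MOM) {α : Type} (N : α → ℕ) (S : Finset α) :
    ∀ (L V R : ℝ), L = ∑ p ∈ S, Real.log (N p) →
    V = ∑ p ∈ S, Real.log (N p) ^ 2 → R = (∏ p ∈ S, (1 / (N p : ℝ))) * 2 ^ S.card →
    mo 0 0 (∏ p ∈ S, al (N p)) = R ∧
    mo 1 0 (∏ p ∈ S, al (N p)) = R * (L / 2) ∧
    mo 0 1 (∏ p ∈ S, al (N p)) = R * (L / 2) ∧
    mo 1 1 (∏ p ∈ S, al (N p)) = R * ((L ^ 2 - V) / 4) ∧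
    mo 2 0 (∏ p ∈ S, al (N p)) = R * ((L ^ 2 + V) / 4) ∧
    mo 0 2 (∏ p ∈ S, al (N p)) = R * ((L ^ 2 + V) / 4) ∧
    mo 3 0 (∏ p ∈ S, al (N p)) = R * ((L ^ 3 + 3 * V * L) / 8) ∧
    mo 0 3 (∏ p ∈ S, al (N p)) = R * ((L ^ 3 + 3 * V * L) / 8) ∧
    mo 2 1 (∏ p ∈ S, al (N p)) = R * ((L ^ 3 - V * L) / 8) ∧
    mo 1 2 (∏ p ∈ S, al (N p)) = R * ((L ^ 3 - V * L) / 8) := by
  classical
  induction S using Finset.induction_on with
  | empty =>
    intro L V R hL hV hR
    simp only [Finset.sum_empty] at hL hV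
    simp only [Finset.prod_empty, Finset.card_empty, pow_zero, mul_one] at hR
    subst hL hV hR
    simp only [Finset.prod_empty, mo_one]
    norm_num
  | insert p S hp ih =>
    intro L V R hL hV hR
    rw [Finset.sum_insert hp] at hL hV
    rw [Finset.prod_insert hp, Finset.card_insert_of_notMem hp] at hR
    rw [Finset.prod_insert hp]
    obtain ⟨h00, h10, h01, h11, h20, h02, h30, h03, h21, h12⟩ := ih _ _ _ rfl rfl rfl
    generalize (∏ p ∈ S, al (N p)) = A at *
    generalize (∑ p ∈ S, Real.log (N p)) = l at *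
    generalize (∑ p ∈ S, Real.log (N p) ^ 2) = v at *
    generalize (∏ p ∈ S, (1 / (N p : ℝ))) = r at *
    subst hL hV hR
    refine ⟨?_, ?_, ?_, ?_, ?_, ?_, ?_, ?_, ?_, ?_⟩ <;>
    · rw [hMOM]
      simp only [Finset.sum_range_succ, Finset.sum_range_zero, mo_al, h00, h10, h01, h11, h20,
        h02, h30, h03, h21, h12, Nat.choose_zero_right, Nat.choose_one_right, Nat.choose_self,
        Nat.choose_succ_self_right, pow_zero, zero_add, Nat.cast_one, pow_one, Nat.sub_zero,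
        Nat.reduceSub, Nat.reduceAdd]
      norm_num [Nat.choose]
      ring

/-- the data of a finite set of primes -/
theorem data_S {α : Type} (N : α → ℕ) (hN : ∀ p, 1 ≤ N p) (S : Finset α) :
    Real.log (nS N S) = ∑ p ∈ S, Real.log (N p) ∧
    2 ^ S.card / (nS N S : ℝ) = (∏ p ∈ S, (1 / (N p : ℝ))) * 2 ^ S.card := by
  have h1 : (nS N S : ℝ) = ∏ p ∈ S, (N p : ℝ) := by
    unfold nS
    push_cast
    rfl
  constructor
  · rw [h1, Real.log_prod]
    intro p _
    have := hN p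
    exact_mod_cast (by omega : N p ≠ 0)
  · rw [h1, Finset.prod_div_distrib, Finset.prod_const_one]
    ring

theorem pf_BDM : T_BDM := by
  have hMOM : T_MOM := Pool.Agent.H3.CN.pf_MOM
  intro α N hN s c B b hB hb
  have hterm : ∀ (i j : ℕ) (Q : ℝ → ℝ → ℝ), (∀ S : Finset α,
      mo i j (∏ p ∈ S, al (N p)) = 2 ^ S.card / (nS N S : ℝ) *
        Q (Real.log (nS N S)) (ve N S)) →
      mo i j B = ∑ S ∈ s, b S * Q (Real.log (nS N S)) (ve N S) := by
    intro i j Q hQ
    rw [hB, map_sum]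
    refine Finset.sum_congr rfl fun S _ => ?_
    rw [map_smul, smul_eq_mul, hb, hQ S]
    ring
  have hkey : ∀ S : Finset α, _ := fun S =>
    mo_prod hMOM N S (Real.log (nS N S)) (ve N S) (2 ^ S.card / (nS N S : ℝ))
      (data_S N hN S).1 rfl (data_S N hN S).2
  refine ⟨?_, ?_, ?_, ?_, ?_, ?_, ?_, ?_, ?_, ?_⟩
  · rw [hterm 0 0 (fun _ _ => 1) (fun S => by rw [(hkey S).1, mul_one])]
    simp
  · rw [hterm 1 0 (fun l _ => l / 2) (fun S => (hkey S).2.1), Finset.mul_sum]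
    exact Finset.sum_congr rfl fun S _ => by ring
  · rw [hterm 0 1 (fun l _ => l / 2) (fun S => (hkey S).2.2.1), Finset.mul_sum]
    exact Finset.sum_congr rfl fun S _ => by ring
  · rw [hterm 1 1 (fun l v => (l ^ 2 - v) / 4) (fun S => (hkey S).2.2.2.1),
      Finset.mul_sum]
    exact Finset.sum_congr rfl fun S _ => by ring
  · rw [hterm 2 0 (fun l v => (l ^ 2 + v) / 4) (fun S => (hkey S).2.2.2.2.1),
      Finset.mul_sum]
    exact Finset.sum_congr rfl fun S _ => by ring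
  · rw [hterm 0 2 (fun l v => (l ^ 2 + v) / 4) (fun S => (hkey S).2.2.2.2.2.1),
      Finset.mul_sum]
    exact Finset.sum_congr rfl fun S _ => by ring
  · rw [hterm 3 0 (fun l v => (l ^ 3 + 3 * v * l) / 8) (fun S => (hkey S).2.2.2.2.2.2.1),
      Finset.mul_sum]
    exact Finset.sum_congr rfl fun S _ => by ring
  · rw [hterm 0 3 (fun l v => (l ^ 3 + 3 * v * l) / 8)
      (fun S => (hkey S).2.2.2.2.2.2.2.1), Finset.mul_sum]
    exact Finset.sum_congr rfl fun S _ => by ring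
  · rw [hterm 2 1 (fun l v => (l ^ 3 - v * l) / 8)
      (fun S => (hkey S).2.2.2.2.2.2.2.2.1), Finset.mul_sum]
    exact Finset.sum_congr rfl fun S _ => by ring
  · rw [hterm 1 2 (fun l v => (l ^ 3 - v * l) / 8)
      (fun S => (hkey S).2.2.2.2.2.2.2.2.2), Finset.mul_sum]
    exact Finset.sum_congr rfl fun S _ => by ring

end Pool.Agent.H34.NVK
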