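import Pool.Agent.H23.NVK.MTargets
import Pool.Agent.H22.CN.CRR

/-!
# MP_347b49_nt: row M_CRR, the singular constant is close to one

The proof is the one of `Pool.Agent.H22.CN.CRR`, over an abstract set of primes.
-/

set_option autoImplicit false

open Filter Topology

namespace Pool.Agent.H34.NVK

open Pool.Agent.H23.NVK
open Pool.Agent.H22.CN (fa fb fa_sub fb_sub fg_sub)

/-- products of factors close to one -/
theorem mult_of {α : Type} {w f : α → ℝ} {C : ℝ} (hw : Summable w) (R : Finset α)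
    (h2 : ∀ p, p ∉ R → |f p - 1| ≤ C * w p) : Multipliable f := by
  have hs : Summable fun p => f p - 1 := by
    refine Summable.of_norm_bounded_eventually (hw.mul_left C) ?_
    rw [eventually_cofinite]
    refine R.finite_toSet.subset fun p hp => ?_
    by_contra h
    exact hp (h2 p h)
  have h3 := Real.multipliable_one_add_of_summable hs
  simpa using h3

theorem tail_bound {α : Type} {w f : α → ℝ} {C η : ℝ} (hC : 0 ≤ C) (hw : Summable w)
    (R : Finset α) (h1 : ∀ p, p ∈ R → f p = 1) (h2 : ∀ p, p ∉ R → |f p - 1| ≤ C * w p)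
    (hη : ∀ t : Finset α, Disjoint t R → ∑ p ∈ t, w p ≤ η) :
    |∏' p, f p - 1| ≤ Real.exp (C * η) - 1 := by
  classical
  have hm : Multipliable f := mult_of hw R h2
  have ht : Tendsto (fun s : Finset α => |∏ p ∈ s, f p - 1|) atTop
      (𝓝 |∏' p, f p - 1|) := (hm.hasProd.sub_const 1).abs
  refine le_of_tendsto ht (Eventually.of_forall fun s => ?_)
  have h3 := Finset.norm_prod_one_add_sub_one_le s (fun p : α => f p - 1)
  simp only [add_sub_cancel, Real.norm_eq_abs] at h3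
  refine h3.trans (sub_le_sub_right (Real.exp_le_exp.2 ?_) _)
  have h4 : ∑ p ∈ s, |f p - 1| ≤ ∑ p ∈ s, if p ∉ R then C * w p else 0 := by
    refine Finset.sum_le_sum fun p _ => ?_
    by_cases h : p ∈ R
    · rw [if_neg (not_not.2 h), h1 p h]
      simp
    · rw [if_pos h]
      exact h2 p h
  refine h4.trans ?_
  rw [← Finset.sum_filter, ← Finset.mul_sum]
  refine mul_le_mul_of_nonneg_left (hη _ ?_) hC
  rw [Finset.disjoint_left]
  intro p hp
  exact (Finset.mem_filter.1 hp).2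

section sing

variable {α : Type} (N : α → ℕ)

theorem inv_le_half (h2 : ∀ p, 2 ≤ N p) (p : α) :
    0 < 1 / (N p : ℝ) ∧ 1 / (N p : ℝ) ≤ 1 / 2 := by
  have h3 : (2 : ℝ) ≤ (N p : ℝ) := by exact_mod_cast h2 p
  exact ⟨by positivity, one_div_le_one_div_of_le (by norm_num) h3⟩

theorem inv_le_third {p : α} (h : 3 ≤ N p) :
    0 ≤ 1 / (N p : ℝ) ∧ 1 / (N p : ℝ) ≤ 1 / 3 := by
  have h3 : (3 : ℝ) ≤ (N p : ℝ) := by exact_mod_cast h
  exact ⟨by positivity, one_div_le_one_div_of_le (by norm_num) h3⟩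

open Classical in
theorem sing_eq (h2 : ∀ p, 2 ≤ N p) (hw : Summable fun p => (((N p : ℕ) : ℝ) ^ 2)⁻¹)
    (R : Finset α) (hR : ∀ p, p ∉ R → 3 ≤ N p) :
    (∏ p ∈ R, (1 - 1 / (N p : ℝ)) ^ 3) * Sg N R =
      ∏' p : α, if p ∈ R then 1 else
        fa (1 / (N p : ℝ)) * fa (1 / (N p : ℝ)) * fb (1 / (N p : ℝ)) := by
  have hH : Hq N R = ∏' p : α, if p ∈ R then
      (1 - 1 / (N p : ℝ))⁻¹ ^ 2 else fa (1 / (N p : ℝ)) := by
    unfold Hq
    refine tprod_congr fun p => ?_
    simp only [fa]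
    split_ifs
    · rfl
    · congr 1
      ring
  have hS : (∏' p : α, if p ∈ R then 1 - 1 / (N p : ℝ) else
      (1 - 1 / (N p : ℝ)) * (1 + 1 / (N p : ℝ) * (1 - 1 / (N p : ℝ) ^ 2) /
      (1 - 2 / (N p : ℝ)) ^ 2)) = ∏' p : α, if p ∈ R then
      1 - 1 / (N p : ℝ) else fb (1 / (N p : ℝ)) := by
    refine tprod_congr fun p => ?_
    simp only [fb]
    split_ifs
    · rfl
    · have h1 : 2 / (N p : ℝ) = 2 * (1 / (N p : ℝ)) := by ring
      rw [h1, one_div_pow]
  have hP : ∏ p ∈ R, (1 - 1 / (N p : ℝ)) ^ 3 =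
      ∏' p : α, if p ∈ R then (1 - 1 / (N p : ℝ)) ^ 3 else 1 := by
    rw [tprod_eq_prod (s := R) fun p hp => if_neg hp]
    exact Finset.prod_congr rfl fun p hp => (if_pos hp).symm
  have hsq : ∀ p : α, (1 / (N p : ℝ)) ^ 2 = (((N p : ℕ) : ℝ) ^ 2)⁻¹ := by
    intro p
    rw [one_div_pow, one_div]
  have hm1 : Multipliable fun p : α => if p ∈ R then
      (1 - 1 / (N p : ℝ))⁻¹ ^ 2 else fa (1 / (N p : ℝ)) := by
    refine mult_of (C := 27) hw R (fun p hp => ?_)
    rw [if_neg hp, ← hsq]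
    obtain ⟨h1, h2⟩ := inv_le_third N (hR p hp)
    exact fa_sub h1 h2
  have hm2 : Multipliable fun p : α => if p ∈ R then
      1 - 1 / (N p : ℝ) else fb (1 / (N p : ℝ)) := by
    refine mult_of (C := 27) hw R (fun p hp => ?_)
    rw [if_neg hp, ← hsq]
    obtain ⟨h1, h2⟩ := inv_le_third N (hR p hp)
    exact fb_sub h1 h2
  have hm3 : Multipliable fun p : α => if p ∈ R then
      (1 - 1 / (N p : ℝ)) ^ 3 else 1 := by
    refine mult_of (C := 27) hw R (fun p hp => ?_)
    rw [if_neg hp, sub_self, abs_zero]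
    positivity
  unfold Sg
  rw [hP, hH, hS, pow_two, ← hm1.tprod_mul hm1, ← (hm1.mul hm1).tprod_mul hm2,
    ← hm3.tprod_mul ((hm1.mul hm1).mul hm2)]
  refine tprod_congr fun p => ?_
  by_cases h : p ∈ R
  · simp only [if_pos h]
    obtain ⟨h1, h2⟩ := inv_le_half N h2 p
    have h3 : 1 - 1 / (N p : ℝ) ≠ 0 := by linarith
    field_simp
  · simp only [if_neg h]
    ring

end sing

theorem pf_CRR (hSUM : T_SUM) : T_CRR := by
  classical
  intro α N ρ δ hA ε hε
  have hw : Summable fun p => (((N p : ℕ) : ℝ) ^ 2)⁻¹ := by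
    have h1 := (hSUM α N ρ δ hA).2.1 2 0 (by norm_num)
    refine h1.congr fun p => ?_
    rw [pow_zero, one_mul, Real.rpow_neg (Nat.cast_nonneg _), Real.rpow_two]
  -- the size of the tail
  obtain ⟨η, hη0, hη⟩ : ∃ η : ℝ, 0 < η ∧ Real.exp (27 * η) - 1 ≤ ε := by
    refine ⟨Real.log (1 + ε) / 27, by have := Real.log_pos (by linarith : 1 < 1 + ε); positivity, ?_⟩
    rw [mul_div_cancel₀ _ (by norm_num : (27 : ℝ) ≠ 0), Real.exp_log (by linarith)]
    linarith
  obtain ⟨s, hs⟩ := summable_iff_vanishing_norm.1 hw η hη0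
  refine ⟨s ∪ PM N 2, fun R hR => ?_⟩
  have hR3 : ∀ p, p ∉ R → 3 ≤ N p := by
    intro p hp
    have h1 : p ∉ PM N 2 := fun h => hp (hR (Finset.mem_union_right _ h))
    rw [hA.mem_PM, not_le] at h1
    have h2 : 2 < N p := by exact_mod_cast h1
    omega
  have h3 := sing_eq N hA.two hw R hR3
  rw [h3]
  refine le_trans ?_ hη
  refine tail_bound (C := 27) (by norm_num) hw R (fun p hp => if_pos hp) (fun p hp => ?_)
    (fun t ht => ?_)
  · obtain ⟨h1, h2⟩ := inv_le_third N (hR3 p hp)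
    rw [if_neg hp]
    refine (fg_sub h1 h2).trans (le_of_eq ?_)
    rw [one_div_pow, one_div]
  · have h4 := hs t (Finset.disjoint_of_subset_right
      (Finset.subset_union_left.trans hR) ht)
    exact (le_abs_self _).trans h4.le

end Pool.Agent.H34.NVK
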